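import Pool.Agent.Helper51.GT.Defs
import Pool.Agent.Helper50.GX.Defs
import Pool.Agent.Helper94.GX.COPY

set_option autoImplicit false

namespace Pool.Agent.Helper51.GT

theorem st_COPY : ST_COPY := by
  intro V _ _ G k q n h1 h2 h3
  exact Pool.Agent.Helper50.GX.st_COPY V G k q n h1 h2 h3

end Pool.Agent.Helper51.GT
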