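import Pool.Agent.Helper51.GT.Defs

set_option autoImplicit false

/-! The final theorem for degree four, in the uniform form. -/

namespace Pool.Agent.Helper51.GT

open Polynomial

/-- Regular graphs. -/
theorem fin_reg (hG : ST_GRP) (hH : ST_HAAR) (hF : ST_FLD) (hN : ST_NUM) (d r : ℕ)
    (hd : 1 ≤ d) (hr : 1 ≤ r) :
    ∃ (V : Type) (_ : Finite V) (_ : Nonempty V) (G : SimpleGraph V) (k : ℕ),
      (2 ^ r) ^ 3 ≤ k ∧ Nat.card V ≤ 4 * (2 ^ r) ^ (8 * d - 2 - 2 * ((d - 1) / 4)) ∧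
      (∀ v : V, (G.neighborSet v).ncard = k) ∧
      ∀ (u : V) (w : G.Walk u u), w.IsCycle → 4 * d ≤ w.length := by
  obtain ⟨K, hK, hfin, φ, hdat, hcard, hφ, hN1, hT⟩ := hF r hr
  obtain ⟨Q, hQ, hQf, t, hQc, hw⟩ := hG K φ hdat d hd
  have hX := hN K φ r hr hdat hcard hφ
  haveI : Finite (XS φ) := inferInstance
  obtain ⟨V, hV, hVn, G, hVc, hdeg, hcyc⟩ := hH Q (XS φ) t (2 * d - 1) (by omega)
    (fun a b j h1 h2 h3 => hw a b j h1 (by omega) h3)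
  refine ⟨V, hV, hVn, G, Nat.card (XS φ), hX, ?_, hdeg, ?_⟩
  · rw [hVc]
    have h1 : Nat.card {x : K // x * fr φ 2 x * fr φ 4 x * fr φ 6 x = 1} *
        Nat.card K ^ (d - 1 - (d - 1) / 4) * Nat.card {x : K // tr4 φ x = 0} ^ ((d - 1) / 4) ≤
        (2 * (2 ^ r) ^ 6) * ((2 ^ r) ^ 8) ^ (d - 1 - (d - 1) / 4) *
          ((2 ^ r) ^ 6) ^ ((d - 1) / 4) := by
      rw [hcard]
      gcongr
    have h2 : (2 * (2 ^ r) ^ 6) * ((2 ^ r) ^ 8) ^ (d - 1 - (d - 1) / 4) *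
          ((2 ^ r) ^ 6) ^ ((d - 1) / 4) = 2 * (2 ^ r) ^ (8 * d - 2 - 2 * ((d - 1) / 4)) := by
      have e1 : ((2 ^ r) ^ 8 : ℕ) ^ (d - 1 - (d - 1) / 4) =
          (2 ^ r) ^ (8 * (d - 1 - (d - 1) / 4)) := (pow_mul _ _ _).symm
      have e2 : ((2 ^ r) ^ 6 : ℕ) ^ ((d - 1) / 4) = (2 ^ r) ^ (6 * ((d - 1) / 4)) :=
        (pow_mul _ _ _).symm
      rw [e1, e2, mul_assoc, mul_assoc, ← pow_add, ← pow_add]
      congr 2
      omega
    have h3 := hQc.trans h1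
    rw [h2] at h3
    calc 2 * Nat.card Q ≤ 2 * (2 * (2 ^ r) ^ (8 * d - 2 - 2 * ((d - 1) / 4))) :=
          Nat.mul_le_mul_left _ h3
      _ = _ := by ring
  · intro u w hw'
    have := hcyc u w hw'
    omega

/-- A tree. -/
theorem fin_tree (n : ℕ) (hn : 1 ≤ n) : ∃ G : SimpleGraph (Fin n),
    (∀ (u : Fin n) (w : G.Walk u u), ¬ w.IsCycle) ∧ n = G.edgeSet.ncard + 1 := by
  classical
  haveI : Nonempty (Fin n) := ⟨⟨0, by omega⟩⟩
  obtain ⟨T, -, hT⟩ := (SimpleGraph.connected_top (V := Fin n)).exists_isTree_le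
  refine ⟨T, fun u w hw => hT.2 w hw, ?_⟩
  have h := hT.card_edgeFinset
  rw [Fintype.card_fin] at h
  have h2 : T.edgeSet.ncard = T.edgeFinset.card := by
    rw [Set.ncard_eq_toFinset_card']
    simp [SimpleGraph.edgeFinset]
  omega

/-- The uniform form. -/
theorem fin_main (hG : ST_GRP) (hH : ST_HAAR) (hF : ST_FLD) (hN : ST_NUM) (hC : ST_COPY)
    (d : ℕ) (hd : 1 ≤ d) (n : ℕ) (hn : 2 ≤ n) :
    ∃ G : SimpleGraph (Fin n),
      (∀ (u : Fin n) (w : G.Walk u u), w.IsCycle → 4 * d ≤ w.length) ∧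
      (n : ℝ) ^ ((1 : ℝ) + 3 / ((8 * d - 2 - 2 * ((d - 1) / 4) : ℕ) : ℝ)) ≤
        64 * (G.edgeSet.ncard : ℝ) := by
  set v := 8 * d - 2 - 2 * ((d - 1) / 4) with hv
  have hv6 : 6 ≤ v := by omega
  have hn0 : (0 : ℝ) < n := by exact_mod_cast (by omega : 0 < n)
  have hn2 : (2 : ℝ) ≤ n := by exact_mod_cast hn
  have hv0 : (0 : ℝ) < (v : ℝ) := by exact_mod_cast (by omega : 0 < v)
  have key : ∀ q : ℝ, 0 < q → (n : ℝ) ≤ 4 * (2 * q) ^ v →
      (n : ℝ) ^ (3 / (v : ℝ)) ≤ 16 * q ^ 3 := by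
    intro q hq h
    have h1 : (n : ℝ) ^ 3 ≤ (16 * q ^ 3) ^ v := by
      have h4 : (4 : ℝ) ^ 3 ≤ 2 ^ v := by
        calc (4 : ℝ) ^ 3 = 2 ^ 6 := by norm_num
          _ ≤ 2 ^ v := pow_le_pow_right₀ (by norm_num) hv6
      calc (n : ℝ) ^ 3 ≤ (4 * (2 * q) ^ v) ^ 3 := by gcongr
        _ = 4 ^ 3 * ((2 * q) ^ 3) ^ v := by
            rw [mul_pow, ← pow_mul, ← pow_mul, mul_comm v 3]
        _ ≤ 2 ^ v * ((2 * q) ^ 3) ^ v := by gcongr
        _ = (16 * q ^ 3) ^ v := by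
            rw [← mul_pow]
            congr 1
            ring
    have h2 : (n : ℝ) ^ (3 / (v : ℝ)) = ((n : ℝ) ^ 3) ^ (1 / (v : ℝ)) := by
      rw [← Real.rpow_natCast, ← Real.rpow_mul hn0.le]
      congr 1
      push_cast
      ring
    rw [h2]
    calc ((n : ℝ) ^ 3) ^ (1 / (v : ℝ)) ≤ ((16 * q ^ 3) ^ v) ^ (1 / (v : ℝ)) := by
          apply Real.rpow_le_rpow (by positivity) h1 (by positivity)
      _ = 16 * q ^ 3 := by
          rw [← Real.rpow_natCast, ← Real.rpow_mul (by positivity), mul_one_div_cancel hv0.ne',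
            Real.rpow_one]
  have hsplit : (n : ℝ) ^ ((1 : ℝ) + 3 / (v : ℝ)) = n * (n : ℝ) ^ (3 / (v : ℝ)) := by
    rw [Real.rpow_add hn0, Real.rpow_one]
  rw [hsplit]
  by_cases hbig : 4 * 2 ^ v ≤ n
  · have hex : ∃ r, n < 4 * (2 ^ (r + 1)) ^ v := by
      refine ⟨n, ?_⟩
      have h1 : n < 2 ^ (n + 1) :=
        lt_trans (Nat.lt_two_pow_self) (Nat.pow_lt_pow_right (by norm_num) (by omega))
      have h2 : 2 ^ (n + 1) ≤ (2 ^ (n + 1)) ^ v := Nat.le_self_pow (by omega) _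
      omega
    classical
    let r := Nat.find hex
    have hr1 : n < 4 * (2 ^ (r + 1)) ^ v := Nat.find_spec hex
    have hr0 : 1 ≤ r := by
      by_contra h0
      have h00 : r = 0 := by omega
      rw [h00] at hr1
      simp only [zero_add, pow_one] at hr1
      omega
    have hr2 : 4 * (2 ^ r) ^ v ≤ n := by
      have := Nat.find_min hex (m := r - 1) (by show r - 1 < r; omega)
      rw [not_lt, Nat.sub_add_cancel hr0] at this
      exact this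
    obtain ⟨V, hV, hVn, G, k, hk, hVc, hdeg, hcyc⟩ := fin_reg hG hH hF hN d r hd hr0
    obtain ⟨H, hH1, hH2⟩ := hC V G (4 * d) k n hdeg hcyc (hVc.trans hr2)
    refine ⟨H, hH1, ?_⟩
    have hq : (n : ℝ) ^ (3 / (v : ℝ)) ≤ 16 * (2 ^ r) ^ 3 := by
      apply key _ (by positivity)
      have : ((n : ℕ) : ℝ) ≤ ((4 * (2 ^ (r + 1)) ^ v : ℕ) : ℝ) := by exact_mod_cast hr1.le
      push_cast at this
      refine this.trans (le_of_eq ?_)
      ring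
    have h1 : (n : ℝ) * k ≤ 4 * (H.edgeSet.ncard : ℝ) := by exact_mod_cast hH2
    have h2 : ((2 : ℝ) ^ r) ^ 3 ≤ k := by exact_mod_cast hk
    calc (n : ℝ) * (n : ℝ) ^ (3 / (v : ℝ)) ≤ n * (16 * (2 ^ r) ^ 3) := by gcongr
      _ ≤ n * (16 * k) := by gcongr
      _ = 16 * (n * k) := by ring
      _ ≤ 16 * (4 * (H.edgeSet.ncard : ℝ)) := by gcongr
      _ = _ := by ring
  · obtain ⟨T, hT1, hT2⟩ := fin_tree n (by omega)
    refine ⟨T, fun u w hw => absurd hw (hT1 u w), ?_⟩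
    have h1 : (n : ℝ) ^ (3 / (v : ℝ)) ≤ 16 * 1 ^ 3 := by
      apply key 1 one_pos
      have : n ≤ 4 * 2 ^ v := by omega
      rw [mul_one]
      exact_mod_cast this
    have h2 : (n : ℝ) = (T.edgeSet.ncard : ℝ) + 1 := by exact_mod_cast hT2
    calc (n : ℝ) * (n : ℝ) ^ (3 / (v : ℝ)) ≤ n * (16 * 1 ^ 3) := by gcongr
      _ ≤ 64 * (T.edgeSet.ncard : ℝ) := by linarith

theorem st_FIN (hG : ST_GRP) (hH : ST_HAAR) (hF : ST_FLD) (hN : ST_NUM) (hC : ST_COPY) :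
    ST_FIN := by
  intro d hd
  refine ⟨1 / 64, by norm_num, 2, ?_⟩
  intro n hn
  obtain ⟨G, h1, h2⟩ := fin_main hG hH hF hN hC d hd n hn
  refine ⟨G, h1, ?_⟩
  linarith

end Pool.Agent.Helper51.GT
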