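import Pool.Agent.Helper51.GT.Defs
import Pool.Agent.Helper50.GX.Defs
import Pool.Agent.Helper95.GX.HAAR

set_option autoImplicit false

namespace Pool.Agent.Helper51.GT

theorem haar_gprod {Q A : Type} [Group Q] (t : A → Q) (a b : ℕ → A) (j : ℕ) :
    gprod t a b j = Pool.Agent.Helper50.GX.gprod t a b j := by
  induction j with
  | zero => rfl
  | succ n ih =>
    show gprod t a b n * (t (a n) * (t (b n))⁻¹) = _
    rw [ih]
    rfl

theorem st_HAAR : ST_HAAR := by
  intro Q A _ _ _ t k hk h
  refine Pool.Agent.Helper50.GX.st_HAAR Q A t k hk ?_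
  intro a b j hj hjk hred
  rw [← haar_gprod]
  exact h a b j hj hjk hred

end Pool.Agent.Helper51.GT
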