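import Pool.Agent.Helper51.GT.Defs

set_option autoImplicit false

/-! NUM: the number of elements of `XS`. -/

namespace Pool.Agent.Helper51.GT

open Polynomial

theorem num_fr_add {K : Type} [Field K] (φ : K ≃+* K) (i j : ℕ) (x : K) :
    fr φ (i + j) x = fr φ i (fr φ j x) := by
  unfold fr
  rw [pow_add]
  rfl

theorem num_fr_pow {K : Type} [Field K] (φ : K ≃+* K) (q : ℕ) (h : ∀ x, φ x = x ^ q) (i : ℕ)
    (x : K) : fr φ i x = x ^ (q ^ i) := by
  induction i generalizing x with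
  | zero => simp [fr]
  | succ n ih =>
    rw [num_fr_add, ih]
    have : fr φ 1 x = x ^ q := by
      unfold fr
      rw [pow_one]
      exact h x
    rw [this, ← pow_mul, pow_succ, mul_comm]

theorem num_fix {K : Type} [Field K] [Finite K] (φ : K ≃+* K) (q : ℕ) (hq : 2 ≤ q)
    (h : ∀ x, φ x = x ^ q) (i : ℕ) (hi : 1 ≤ i) :
    Nat.card {x : K // fr φ i x = x} ≤ q ^ i := by
  classical
  have h1 : 1 < q ^ i := by
    calc 1 < q := by omega
      _ = q ^ 1 := (pow_one q).symm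
      _ ≤ q ^ i := Nat.pow_le_pow_right (by omega) hi
  have hdeg := FiniteField.X_pow_card_sub_X_natDegree_eq K h1
  have hne := FiniteField.X_pow_card_sub_X_ne_zero K h1
  have hsub : {x : K | fr φ i x = x} ⊆
      (((X ^ (q ^ i) - X : K[X]).roots.toFinset : Finset K) : Set K) := by
    intro x hx
    have hx' : fr φ i x = x := hx
    simp only [Finset.mem_coe, Multiset.mem_toFinset, Polynomial.mem_roots hne,
      Polynomial.IsRoot.def, Polynomial.eval_sub, Polynomial.eval_pow, Polynomial.eval_X]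
    rw [← num_fr_pow φ q h i x, hx', sub_self]
  have h2 : Nat.card {x : K // fr φ i x = x} = {x : K | fr φ i x = x}.ncard := rfl
  rw [h2]
  refine (Set.ncard_le_ncard hsub (Finset.finite_toSet _)).trans ?_
  rw [Set.ncard_coe_finset]
  refine (Multiset.toFinset_card_le _).trans ?_
  refine (Polynomial.card_roots' _).trans ?_
  rw [hdeg]

/-- The key counting lemma. -/
theorem num_onto {K : Type} [Field K] [Finite K] (h2 : (2 : K) = 0) (G : AddSubgroup K)
    (τ : K →+* K) (hG : ∀ x ∈ G, τ x ∈ G) (hinv : ∀ x ∈ G, τ (τ x) = x) (m : ℕ)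
    (hm : m * m ≤ Nat.card G) (hF : Nat.card {x : K // τ x = x} ≤ m) :
    m ≤ Nat.card {x : K // x ∈ G ∧ τ x = x} ∧ ∀ y ∈ G, τ y = y → ∃ x ∈ G, x + τ x = y := by
  classical
  have hxx : ∀ x : K, x + x = 0 := fun x => by
    rw [← two_mul, h2, zero_mul]
  let T : G →+ G :=
    { toFun := fun x => ⟨x.1 + τ x.1, G.add_mem x.2 (hG _ x.2)⟩
      map_zero' := by
        ext
        simp
      map_add' := by
        intro x y
        ext
        simp only [AddSubgroup.coe_add, map_add]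
        ring }
  have hker : ∀ x : G, x ∈ T.ker ↔ τ x.1 = x.1 := by
    intro x
    rw [AddMonoidHom.mem_ker, Subtype.ext_iff]
    show x.1 + τ x.1 = 0 ↔ _
    constructor
    · intro h
      have := hxx x.1
      linear_combination h - this
    · intro h
      rw [h]
      exact hxx _
  have hrange : ∀ y : G, y ∈ T.range → τ y.1 = y.1 := by
    rintro _ ⟨x, rfl⟩
    show τ (x.1 + τ x.1) = x.1 + τ x.1
    rw [map_add, hinv _ x.2, add_comm]
  let F := {x : K // x ∈ G ∧ τ x = x}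
  have hcker : Nat.card T.ker = Nat.card F := by
    refine Nat.card_congr ⟨fun x => ⟨x.1.1, x.1.2, (hker _).1 x.2⟩,
      fun x => ⟨⟨x.1, x.2.1⟩, (hker _).2 x.2.2⟩, fun x => rfl, fun x => rfl⟩
  have hFm : Nat.card F ≤ m := by
    refine le_trans (Nat.card_le_card_of_injective (fun x : F => (⟨x.1, x.2.2⟩ : {x : K // τ x = x})) ?_) hF
    intro x y hxy
    apply Subtype.ext
    simpa using hxy
  have hcard : Nat.card G = Nat.card T.range * Nat.card T.ker := by
    rw [AddSubgroup.card_eq_card_quotient_mul_card_addSubgroup T.ker]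
    congr 1
    exact Nat.card_congr (QuotientAddGroup.quotientKerEquivRange T).toEquiv
  have hinj : Function.Injective
      (fun y : T.range => (⟨y.1.1, y.1.2, hrange _ y.2⟩ : F)) := by
    intro x y hxy
    apply Subtype.ext
    apply Subtype.ext
    simpa using hxy
  have hle : Nat.card T.range ≤ Nat.card F := Nat.card_le_card_of_injective _ hinj
  have hFpos : 0 < Nat.card F := by
    haveI : Nonempty F := ⟨⟨0, G.zero_mem, map_zero τ⟩⟩
    exact Nat.card_pos
  have hmF : m ≤ Nat.card F := by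
    by_contra hlt
    push Not at hlt
    have : Nat.card G ≤ Nat.card F * Nat.card F := by
      rw [hcard, hcker]
      exact Nat.mul_le_mul_right _ hle
    have h3 : Nat.card F * Nat.card F < m * m := Nat.mul_lt_mul'' hlt hlt
    omega
  refine ⟨hmF, ?_⟩
  have hFeq : Nat.card F = m := le_antisymm hFm hmF
  have hge : Nat.card F ≤ Nat.card T.range := by
    have h4 : m * m ≤ Nat.card T.range * m := by
      rw [← hFeq, ← hcker, ← hcard, hcker, hFeq]
      exact hm
    rw [hFeq]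
    exact Nat.le_of_mul_le_mul_right h4 (by omega)
  have hbij : Function.Bijective
      (fun y : T.range => (⟨y.1.1, y.1.2, hrange _ y.2⟩ : F)) := by
    rw [Nat.bijective_iff_injective_and_card]
    exact ⟨hinj, le_antisymm hle hge⟩
  intro y hy hτ
  obtain ⟨⟨z, x, hx⟩, hz⟩ := hbij.2 ⟨y, hy, hτ⟩
  refine ⟨x.1, x.2, ?_⟩
  have h5 := congrArg Subtype.val hz
  simp only at h5
  rw [← h5, ← hx]
  rfl

/-- `Q(x)`. -/
def num_Q {K : Type} [Field K] (φ : K ≃+* K) (x : K) : K :=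
  x * fr φ 1 x + x * fr φ 3 x + fr φ 2 x * fr φ 3 x + fr φ 5 x * fr φ 6 x

theorem st_NUM : ST_NUM := by
  intro K _ _ φ r hr hD hcard hφ
  classical
  obtain ⟨q, hq⟩ : ∃ q : ℕ, q = 2 ^ r := ⟨_, rfl⟩
  rw [← hq] at hcard ⊢
  have hq2 : 2 ≤ q := by
    rw [hq]
    calc 2 = 2 ^ 1 := (pow_one 2).symm
      _ ≤ 2 ^ r := Nat.pow_le_pow_right (by norm_num) hr
  have hφq : ∀ x, φ x = x ^ q := by
    rw [hq]
    exact hφ
  have h2 : (2 : K) = 0 := hD.two
  have hxx : ∀ x : K, x + x = 0 := fun x => by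
    rw [← two_mul, h2, zero_mul]
  have add := num_fr_add φ
  have h8 : ∀ x, fr φ 8 x = x := hD.ord
  have h9 : ∀ i x, fr φ (i + 8) x = fr φ i x := fun i x => by rw [add, h8]
  -- fixed subgroups
  let G (i : ℕ) : AddSubgroup K :=
    { carrier := {x | fr φ i x = x}
      add_mem' := fun {x y} hx hy => by
        have hx' : fr φ i x = x := hx
        have hy' : fr φ i y = y := hy
        show fr φ i (x + y) = x + y
        rw [map_add, hx', hy']
      zero_mem' := map_zero (fr φ i)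
      neg_mem' := fun {x} hx => by
        have hx' : fr φ i x = x := hx
        show fr φ i (-x) = -x
        rw [map_neg, hx'] }
  have hGm : ∀ i x, x ∈ G i ↔ fr φ i x = x := fun i x => Iff.rfl
  have hGc : ∀ i, Nat.card (G i) = Nat.card {x : K // fr φ i x = x} := fun i => rfl
  -- step 1
  obtain ⟨c4, o4⟩ := num_onto h2 ⊤ (fr φ 4) (fun x _ => AddSubgroup.mem_top _)
    (fun x _ => by rw [← add]; exact h8 x) (q ^ 4) (by
      rw [AddSubgroup.card_top, hcard, ← pow_add]) (num_fix φ q hq2 hφq 4 (by norm_num))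
  have c4' : q ^ 4 ≤ Nat.card (G 4) := by
    refine c4.trans ?_
    rw [hGc]
    exact Nat.card_le_card_of_injective (fun x => ⟨x.1, x.2.2⟩) (fun x y h => by
      apply Subtype.ext
      simpa using h)
  obtain ⟨c2, -⟩ := num_onto h2 (G 4) (fr φ 2) (fun x hx => by
      rw [hGm] at hx ⊢
      rw [← add, add_comm, add, hx]) (fun x hx => by rw [← add]; exact hx) (q ^ 2) (by
      rw [← pow_add]
      exact c4') (num_fix φ q hq2 hφq 2 (by norm_num))
  have c2' : q ^ 2 ≤ Nat.card (G 2) := by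
    refine c2.trans ?_
    rw [hGc]
    exact Nat.card_le_card_of_injective (fun x => ⟨x.1, x.2.2⟩) (fun x y h => by
      apply Subtype.ext
      simpa using h)
  obtain ⟨-, o1⟩ := num_onto h2 (G 2) (fr φ 1) (fun x hx => by
      rw [hGm] at hx ⊢
      rw [← add, add_comm, add, hx]) (fun x hx => by rw [← add]; exact hx) q (by
      rw [← pow_two]
      exact c2') (by
      have := num_fix φ q hq2 hφq 1 (by norm_num)
      rwa [pow_one] at this)
  obtain ⟨x0, -, hx0⟩ := o4 1 (AddSubgroup.mem_top _) (map_one _)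
  obtain ⟨ω, hω, hω1⟩ := o1 1 (by rw [hGm]; exact map_one _) (map_one _)
  rw [hGm] at hω
  -- shifts
  have hω1' : fr φ 1 ω = ω + 1 := by
    linear_combination hω1 - hxx ω
  have hωs : fr φ 2 ω = ω ∧ fr φ 3 ω = ω + 1 ∧ fr φ 4 ω = ω ∧ fr φ 5 ω = ω + 1 ∧ fr φ 6 ω = ω := by
    have e2 : ∀ i, fr φ (i + 2) ω = fr φ i ω := fun i => by rw [add, hω]
    refine ⟨hω, (e2 1).trans hω1', (e2 2).trans hω, ?_, ?_⟩
    · exact ((e2 3).trans (e2 1)).trans hω1'
    · exact ((e2 4).trans (e2 2)).trans hω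
  let A := {x : K // x + fr φ 4 x = 1}
  let Z := {x : K // x + fr φ 4 x = 1 ∧ num_Q φ x = 0}
  have hAc : q ^ 4 ≤ Nat.card A := by
    refine c4'.trans ?_
    refine Nat.card_le_card_of_injective (fun f : G 4 => (⟨x0 + f.1, ?_⟩ : A)) ?_
    · have hf : fr φ 4 f.1 = f.1 := f.2
      rw [map_add, hf]
      linear_combination hx0 + hxx f.1
    · intro f g hfg
      apply Subtype.ext
      have := congrArg Subtype.val hfg
      simpa using this
  have hsh : ∀ x : K, x + fr φ 4 x = 1 → fr φ 4 x = x + 1 ∧ fr φ 5 x = fr φ 1 x + 1 ∧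
      fr φ 6 x = fr φ 2 x + 1 ∧ fr φ 7 x = fr φ 3 x + 1 := by
    intro x hx
    have e4 : fr φ 4 x = x + 1 := by linear_combination hx - hxx x
    refine ⟨e4, ?_, ?_, ?_⟩
    · rw [show (5 : ℕ) = 1 + 4 from rfl, add, e4, map_add, map_one]
    · rw [show (6 : ℕ) = 2 + 4 from rfl, add, e4, map_add, map_one]
    · rw [show (7 : ℕ) = 3 + 4 from rfl, add, e4, map_add, map_one]
  have hQ1 : ∀ x : K, x + fr φ 4 x = 1 → fr φ 1 (num_Q φ x) = num_Q φ x := by
    intro x hx
    obtain ⟨e4, e5, e6, e7⟩ := hsh x hx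
    unfold num_Q
    simp only [map_add, map_mul, ← add]
    norm_num only
    rw [e4, e5, e6, e7]
    linear_combination h2 * fr φ 3 x
  have hQ2 : ∀ x t : K, x + fr φ 4 x = 1 → fr φ 1 t = t →
      num_Q φ (x + ω * t) = num_Q φ x + t := by
    intro x t hx ht
    obtain ⟨e4, e5, e6, e7⟩ := hsh x hx
    have hts : fr φ 2 t = t ∧ fr φ 3 t = t ∧ fr φ 5 t = t ∧ fr φ 6 t = t := by
      have e1 : ∀ i, fr φ (i + 1) t = fr φ i t := fun i => by rw [add, ht]
      have a2 : fr φ 2 t = t := (e1 1).trans ht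
      have a3 : fr φ 3 t = t := (e1 2).trans a2
      have a4 : fr φ 4 t = t := (e1 3).trans a3
      have a5 : fr φ 5 t = t := (e1 4).trans a4
      have a6 : fr φ 6 t = t := (e1 5).trans a5
      exact ⟨a2, a3, a5, a6⟩
    obtain ⟨t2, t3, t5, t6⟩ := hts
    obtain ⟨w2, w3, w4, w5, w6⟩ := hωs
    unfold num_Q
    simp only [map_add, map_mul]
    rw [e5, e6, hω1', w2, w3, w5, w6, ht, t2, t3, t5, t6]
    linear_combination h2 * (2 * ω * t * (ω + 1) * t + x * (ω + 1) * t + ω * t * fr φ 1 x +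
      ω * t * fr φ 3 x + (ω + 1) * t * fr φ 2 x + ω * t)
  have hF0 : Nat.card {x : K // fr φ 1 x = x} ≤ q := by
    have := num_fix φ q hq2 hφq 1 (by norm_num)
    rwa [pow_one] at this
  have hω4 : fr φ 4 ω = ω := hωs.2.2.1
  have hAZ : Nat.card A ≤ Nat.card (Z × {x : K // fr φ 1 x = x}) := by
    refine Nat.card_le_card_of_injective
      (fun x : A => ((⟨x.1 + ω * num_Q φ x.1, ?_, ?_⟩ : Z), (⟨num_Q φ x.1, hQ1 x.1 x.2⟩ :
        {x : K // fr φ 1 x = x}))) ?_
    · have h1 := hQ1 x.1 x.2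
      have h4 : fr φ 4 (num_Q φ x.1) = num_Q φ x.1 := by
        have e1 : ∀ i, fr φ (i + 1) (num_Q φ x.1) = fr φ i (num_Q φ x.1) := fun i => by
          rw [add, h1]
        exact (((e1 3).trans (e1 2)).trans (e1 1)).trans h1
      rw [map_add, map_mul, h4, hω4]
      linear_combination x.2 + hxx (ω * num_Q φ x.1)
    · rw [hQ2 x.1 _ x.2 (hQ1 x.1 x.2)]
      exact hxx _
    · intro x y hxy
      have h3 : x.1 + ω * num_Q φ x.1 = y.1 + ω * num_Q φ y.1 :=
        congrArg (fun w => w.1.1) hxy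
      have h4 : num_Q φ x.1 = num_Q φ y.1 := congrArg (fun w => w.2.1) hxy
      apply Subtype.ext
      rw [h4] at h3
      exact add_right_cancel h3
  have hZc : q ^ 3 ≤ Nat.card Z := by
    rw [Nat.card_prod] at hAZ
    have h5 : q ^ 3 * q ≤ Nat.card Z * q := by
      calc q ^ 3 * q = q ^ 4 := by ring
        _ ≤ Nat.card A := hAc
        _ ≤ Nat.card Z * Nat.card {x : K // fr φ 1 x = x} := hAZ
        _ ≤ Nat.card Z * q := Nat.mul_le_mul_left _ hF0
    exact Nat.le_of_mul_le_mul_right h5 (by omega)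
  refine hZc.trans ?_
  -- Z → XS
  let ν : K → K := fun x => x * fr φ 2 x * fr φ 4 x * fr φ 6 x
  let c : K → K := fun x => (ν x)⁻¹ ^ (2 ^ (8 * r - 2))
  have hxne : ∀ x : K, x + fr φ 4 x = 1 → x ≠ 0 := by
    rintro x hx rfl
    rw [map_zero, add_zero] at hx
    exact zero_ne_one hx
  have hνne : ∀ x : K, x + fr φ 4 x = 1 → ν x ≠ 0 := by
    intro x hx
    have h0 := hxne x hx
    have hi : ∀ i, fr φ i x ≠ 0 := fun i => (map_ne_zero (fr φ i)).2 h0
    exact mul_ne_zero (mul_ne_zero (mul_ne_zero h0 (hi 2)) (hi 4)) (hi 6)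
  have hν2 : ∀ x : K, fr φ 2 (ν x) = ν x := by
    intro x
    show fr φ 2 (x * fr φ 2 x * fr φ 4 x * fr φ 6 x) = x * fr φ 2 x * fr φ 4 x * fr φ 6 x
    simp only [map_mul, ← add]
    norm_num only
    rw [h8]
    ring
  have hc2 : ∀ x : K, fr φ 2 (c x) = c x := by
    intro x
    show fr φ 2 ((ν x)⁻¹ ^ (2 ^ (8 * r - 2))) = _
    rw [map_pow, map_inv₀, hν2]
  have hc4 : ∀ x : K, c x ^ 4 = (ν x)⁻¹ := by
    intro x
    show ((ν x)⁻¹ ^ (2 ^ (8 * r - 2))) ^ 4 = _
    rw [← pow_mul, show (4 : ℕ) = 2 ^ 2 from rfl, ← pow_add]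
    have h6 : 8 * r - 2 + 2 = 8 * r := by omega
    rw [h6]
    haveI := Fintype.ofFinite K
    have h7 : 2 ^ (8 * r) = Fintype.card K := by
      rw [← Nat.card_eq_fintype_card, hcard, hq, ← pow_mul, mul_comm]
    rw [h7]
    exact FiniteField.pow_card _
  have hcne : ∀ x : K, x + fr φ 4 x = 1 → c x ≠ 0 := by
    intro x hx h0
    have := hc4 x
    rw [h0, zero_pow (by norm_num)] at this
    exact inv_ne_zero (hνne x hx) this.symm
  have hcs : ∀ x : K, fr φ 3 (c x) = fr φ 1 (c x) ∧ fr φ 4 (c x) = c x ∧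
      fr φ 5 (c x) = fr φ 1 (c x) ∧ fr φ 6 (c x) = c x := by
    intro x
    have e2 : ∀ i, fr φ (i + 2) (c x) = fr φ i (c x) := fun i => by rw [add, hc2]
    exact ⟨e2 1, (e2 2).trans (hc2 x), (e2 3).trans (e2 1),
      ((e2 4).trans (e2 2)).trans (hc2 x)⟩
  refine Nat.card_le_card_of_injective (fun x : Z => (⟨c x.1 * x.1, ?_, ?_, ?_⟩ : XS φ)) ?_
  · obtain ⟨s3, s4, s5, s6⟩ := hcs x.1
    simp only [map_mul]
    rw [hc2, s4, s6]
    have h10 := hc4 x.1
    have h11 : (ν x.1)⁻¹ * ν x.1 = 1 := inv_mul_cancel₀ (hνne x.1 x.2.1)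
    have h12 : ν x.1 = x.1 * fr φ 2 x.1 * fr φ 4 x.1 * fr φ 6 x.1 := rfl
    rw [← h10, h12] at h11
    linear_combination h11
  · obtain ⟨s3, s4, s5, s6⟩ := hcs x.1
    obtain ⟨e4, e5, e6, e7⟩ := hsh x.1 x.2.1
    simp only [map_mul]
    rw [hc2, s4, s6, e4, e6]
    linear_combination h2 * (c x.1 * (x.1 + fr φ 2 x.1 + 1))
  · obtain ⟨s3, s4, s5, s6⟩ := hcs x.1
    have hQ := x.2.2
    unfold num_Q at hQ
    simp only [map_mul]
    rw [hc2, s3, s5, s6]
    linear_combination (c x.1 * fr φ 1 (c x.1)) * hQ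
  · intro x y hxy
    have h13 : c x.1 * x.1 = c y.1 * y.1 := by
      have := congrArg Subtype.val hxy
      simpa using this
    have h14 : c x.1 * fr φ 4 x.1 = c y.1 * fr φ 4 y.1 := by
      have := congrArg (fr φ 4) h13
      rwa [map_mul, map_mul, (hcs x.1).2.1, (hcs y.1).2.1] at this
    have h15 : c x.1 = c y.1 := by
      linear_combination h13 + h14 - c x.1 * x.2.1 + c y.1 * y.2.1
    apply Subtype.ext
    rw [h15] at h13
    exact mul_left_cancel₀ (hcne y.1 y.2.1) h13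

end Pool.Agent.Helper51.GT
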